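import Pool.Agent.CT.Final

/-!
# MP_02e21a_al: the groups CT_P(Z) are finitely presented

For every finite set `P` the group `CT P`, generated by all class transpositions whose moduli have
only prime factors in `P ∪ {2}`, is generated by finitely many class transpositions, and all
relations between any finitely many generators follow from finitely many of them.
-/

set_option autoImplicit false

namespace Pool.Agent.Results.MP_02e21a_al.AllGeneratingSets

/-- `τ` is the class transposition of the disjoint residue classes `r₁(m₁)` and `r₂(m₂)`: it swaps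
`r₁ + k m₁` and `r₂ + k m₂` for every integer `k` and fixes all other integers. -/
def IsClassTransposition (r₁ m₁ r₂ m₂ : ℤ) (τ : Equiv.Perm ℤ) : Prop :=
  (0 ≤ r₁ ∧ r₁ < m₁) ∧ (0 ≤ r₂ ∧ r₂ < m₂) ∧ (∀ k l : ℤ, r₁ + k * m₁ ≠ r₂ + l * m₂) ∧
    (∀ k : ℤ, τ (r₁ + k * m₁) = r₂ + k * m₂ ∧ τ (r₂ + k * m₂) = r₁ + k * m₁) ∧
      ∀ x : ℤ, (∀ k : ℤ, x ≠ r₁ + k * m₁ ∧ x ≠ r₂ + k * m₂) → τ x = x

/-- The class transpositions whose moduli have only prime factors in `P ∪ {2}`. -/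
def classTranspositions (P : Set ℕ) : Set (Equiv.Perm ℤ) :=
  {τ | ∃ r₁ m₁ r₂ m₂ : ℤ, IsClassTransposition r₁ m₁ r₂ m₂ τ ∧
    ∀ p : ℕ, p.Prime → ((p : ℤ) ∣ m₁ ∨ (p : ℤ) ∣ m₂) → p = 2 ∨ p ∈ P}

/-- The group `CT_P(ℤ)`. -/
def CT (P : Set ℕ) : Subgroup (Equiv.Perm ℤ) := Subgroup.closure (classTranspositions P)

/-! ### proofs -/

theorem mem_gens_iff (P : Finset ℕ) (τ : Equiv.Perm ℤ) :
    τ ∈ classTranspositions (P : Set ℕ) ↔ τ ∈ Pool.Agent.CT.gens P := by
  unfold classTranspositions Pool.Agent.CT.gens IsClassTransposition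
  simp only [Set.mem_ofPred_eq]
  have key : ∀ (m r k : ℤ), 0 < m → (0 ≤ r ∧ r < m) → (k % m = r ↔ ∃ l : ℤ, k = r + l * m) := by
    intro m r k hm hr
    constructor
    · intro h
      exact ⟨k / m, by rw [← h]; have := Int.emod_add_mul_ediv k m; linarith [mul_comm m (k / m)]⟩
    · rintro ⟨l, rfl⟩
      rw [Int.add_mul_emod_self_right]
      exact Int.emod_eq_of_lt hr.1 hr.2
  have pf : ∀ m : ℤ, 0 < m → ((∀ p ∈ Nat.primeFactors m.natAbs, p = 2 ∨ p ∈ P) ↔
      ∀ p : ℕ, p.Prime → (p : ℤ) ∣ m → p = 2 ∨ p ∈ P) := by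
    intro m hm
    have h0 : m.natAbs ≠ 0 := by omega
    constructor
    · intro h p hp hd
      exact h p (Nat.mem_primeFactors.2 ⟨hp, Int.natCast_dvd.1 hd, h0⟩)
    · intro h p hp
      have := Nat.mem_primeFactors.1 hp
      exact h p this.1 (Int.natCast_dvd.2 this.2.1)
  constructor
  · rintro ⟨r₁, m₁, r₂, m₂, ⟨⟨h1, h2⟩, ⟨h3, h4⟩, h5, h6, h7⟩, h8⟩
    have hm1 : 0 < m₁ := lt_of_le_of_lt h1 h2
    have hm2 : 0 < m₂ := lt_of_le_of_lt h3 h4
    refine ⟨r₁, m₁, r₂, m₂, hm1, hm2, h1, h2, h3, h4, ?_, ?_, ?_, ?_⟩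
    · rintro k ⟨a, b⟩
      obtain ⟨l, hl⟩ := (key m₁ r₁ k hm1 ⟨h1, h2⟩).1 a
      obtain ⟨l', hl'⟩ := (key m₂ r₂ k hm2 ⟨h3, h4⟩).1 b
      exact h5 l l' (by rw [← hl, ← hl'])
    · exact (pf m₁ hm1).2 fun p hp hd => h8 p hp (Or.inl hd)
    · exact (pf m₂ hm2).2 fun p hp hd => h8 p hp (Or.inr hd)
    · intro k
      by_cases a : k % m₁ = r₁
      · rw [if_pos a]
        obtain ⟨l, rfl⟩ := (key m₁ r₁ k hm1 ⟨h1, h2⟩).1 a
        rw [(h6 l).1]
        have : m₂ * (r₁ + l * m₁) + m₁ * r₂ - m₂ * r₁ = m₁ * (r₂ + l * m₂) := by ring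
        rw [this, Int.mul_ediv_cancel_left _ hm1.ne']
      · rw [if_neg a]
        by_cases b : k % m₂ = r₂
        · rw [if_pos b]
          obtain ⟨l, rfl⟩ := (key m₂ r₂ k hm2 ⟨h3, h4⟩).1 b
          rw [(h6 l).2]
          have : m₁ * (r₂ + l * m₂) + m₂ * r₁ - m₁ * r₂ = m₂ * (r₁ + l * m₁) := by ring
          rw [this, Int.mul_ediv_cancel_left _ hm2.ne']
        · rw [if_neg b]
          exact h7 k fun l => ⟨fun h => a ((key m₁ r₁ k hm1 ⟨h1, h2⟩).2 ⟨l, h⟩),
            fun h => b ((key m₂ r₂ k hm2 ⟨h3, h4⟩).2 ⟨l, h⟩)⟩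
  · rintro ⟨r₁, m₁, r₂, m₂, hm1, hm2, h1, h2, h3, h4, h5, h6, h7, h8⟩
    have hd : ∀ k l : ℤ, r₁ + k * m₁ ≠ r₂ + l * m₂ := by
      intro k l h
      exact h5 (r₁ + k * m₁) ⟨(key m₁ r₁ _ hm1 ⟨h1, h2⟩).2 ⟨k, rfl⟩,
        (key m₂ r₂ _ hm2 ⟨h3, h4⟩).2 ⟨l, h⟩⟩
    refine ⟨r₁, m₁, r₂, m₂, ⟨⟨h1, h2⟩, ⟨h3, h4⟩, hd, ?_, ?_⟩, ?_⟩
    · intro l
      constructor
      · rw [h8, if_pos ((key m₁ r₁ _ hm1 ⟨h1, h2⟩).2 ⟨l, rfl⟩)]
        have : m₂ * (r₁ + l * m₁) + m₁ * r₂ - m₂ * r₁ = m₁ * (r₂ + l * m₂) := by ring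
        rw [this, Int.mul_ediv_cancel_left _ hm1.ne']
      · rw [h8, if_neg (fun h => by
          obtain ⟨l', hl'⟩ := (key m₁ r₁ _ hm1 ⟨h1, h2⟩).1 h
          exact hd l' l hl'.symm), if_pos ((key m₂ r₂ _ hm2 ⟨h3, h4⟩).2 ⟨l, rfl⟩)]
        have : m₁ * (r₂ + l * m₂) + m₂ * r₁ - m₁ * r₂ = m₂ * (r₁ + l * m₁) := by ring
        rw [this, Int.mul_ediv_cancel_left _ hm2.ne']
    · intro x hx
      rw [h8, if_neg fun h => by
        obtain ⟨l, hl⟩ := (key m₁ r₁ _ hm1 ⟨h1, h2⟩).1 h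
        exact (hx l).1 hl, if_neg fun h => by
        obtain ⟨l, hl⟩ := (key m₂ r₂ _ hm2 ⟨h3, h4⟩).1 h
        exact (hx l).2 hl]
    · intro p hp hd'
      rcases hd' with hd' | hd'
      · exact (pf m₁ hm1).1 h6 p hp hd'
      · exact (pf m₂ hm2).1 h7 p hp hd'

/-- finite presentability does not depend on the generators -/
theorem change {G : Type} [Group G] {n₀ n : ℕ} (φ₀ : FreeGroup (Fin n₀) →* G)
    (h₀ : Function.Surjective φ₀) {R₀ : Set (FreeGroup (Fin n₀))} (hR₀ : R₀.Finite)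
    (hk : φ₀.ker = Subgroup.normalClosure R₀) (φ : FreeGroup (Fin n) →* G)
    (h : Function.Surjective φ) :
    ∃ R : Set (FreeGroup (Fin n)), R.Finite ∧ φ.ker = Subgroup.normalClosure R := by
  classical
  choose w hw using fun i : Fin n₀ => h (φ₀ (FreeGroup.of i))
  choose u hu using fun j : Fin n => h₀ (φ (FreeGroup.of j))
  set α : FreeGroup (Fin n₀) →* FreeGroup (Fin n) := FreeGroup.lift w with hα
  have hφα : ∀ x, φ (α x) = φ₀ x := by
    intro x
    have : φ.comp α = φ₀ := by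
      apply FreeGroup.ext_hom
      intro i
      rw [MonoidHom.comp_apply, hα, FreeGroup.lift_apply_of, hw]
    rw [← this, MonoidHom.comp_apply]
  set R : Set (FreeGroup (Fin n)) := α '' R₀ ∪ Set.range fun j => (FreeGroup.of j)⁻¹ * α (u j)
    with hR
  refine ⟨R, (hR₀.image _).union (Set.finite_range _), ?_⟩
  set N := Subgroup.normalClosure R with hN
  apply le_antisymm
  · -- the kernel is contained in the normal closure
    have hαN : ∀ x ∈ φ₀.ker, α x ∈ N := by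
      intro x hx
      have hle : φ₀.ker ≤ N.comap α := by
        rw [hk]
        apply Subgroup.normalClosure_le_normal
        intro r hr
        exact Subgroup.subset_normalClosure (Or.inl ⟨r, hr, rfl⟩)
      exact hle hx
    have hα2 : ∀ x y, φ₀ x = φ₀ y → QuotientGroup.mk' N (α x) = QuotientGroup.mk' N (α y) := by
      intro x y hxy
      rw [QuotientGroup.mk'_apply, QuotientGroup.mk'_apply, QuotientGroup.eq]
      have : x⁻¹ * y ∈ φ₀.ker := by
        rw [MonoidHom.mem_ker, map_mul, map_inv, hxy, inv_mul_cancel]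
      have := hαN _ this
      rwa [map_mul, map_inv] at this
    let ψ : FreeGroup (Fin n) →* FreeGroup (Fin n) ⧸ N :=
      { toFun := fun y => QuotientGroup.mk' N (α (Function.surjInv h₀ (φ y)))
        map_one' := by
          rw [map_one]
          rw [hα2 _ 1 (by rw [Function.surjInv_eq h₀, map_one]), map_one, map_one]
        map_mul' := by
          intro a b
          rw [← map_mul, ← map_mul]
          apply hα2
          rw [Function.surjInv_eq h₀, map_mul, map_mul, Function.surjInv_eq h₀,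
            Function.surjInv_eq h₀] }
    have hψ : ψ = QuotientGroup.mk' N := by
      apply FreeGroup.ext_hom
      intro j
      change QuotientGroup.mk' N (α (Function.surjInv h₀ (φ (FreeGroup.of j)))) = _
      rw [hα2 _ (u j) (by rw [Function.surjInv_eq h₀, hu])]
      rw [QuotientGroup.mk'_apply, QuotientGroup.mk'_apply, eq_comm, QuotientGroup.eq]
      exact Subgroup.subset_normalClosure (Or.inr ⟨j, rfl⟩)
    intro y hy
    rw [MonoidHom.mem_ker] at hy
    have h1 : ψ y = 1 := by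
      change QuotientGroup.mk' N (α (Function.surjInv h₀ (φ y))) = 1
      rw [hα2 _ 1 (by rw [Function.surjInv_eq h₀, hy, map_one]), map_one, map_one]
    rw [hψ, QuotientGroup.mk'_apply, QuotientGroup.eq_one_iff] at h1
    exact h1
  · apply Subgroup.normalClosure_le_normal
    rintro r (⟨x, hx, rfl⟩ | ⟨j, rfl⟩)
    · rw [SetLike.mem_coe, MonoidHom.mem_ker, hφα, ← MonoidHom.mem_ker, hk]
      exact Subgroup.subset_normalClosure hx
    · rw [SetLike.mem_coe, MonoidHom.mem_ker, map_mul, map_inv, hφα, hu, inv_mul_cancel]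

theorem exists_finite {G : Type} [Group G] (S : Set G) (g : G) (hg : g ∈ Subgroup.closure S) :
    ∃ T : Set G, T.Finite ∧ T ⊆ S ∧ g ∈ Subgroup.closure T := by
  induction hg using Subgroup.closure_induction with
  | mem x hx => exact ⟨{x}, Set.finite_singleton x, Set.singleton_subset_iff.2 hx,
      Subgroup.subset_closure rfl⟩
  | one => exact ⟨∅, Set.finite_empty, Set.empty_subset _, Subgroup.one_mem _⟩
  | mul a b _ _ ha hb =>
    obtain ⟨T, h1, h2, h3⟩ := ha
    obtain ⟨T', h1', h2', h3'⟩ := hb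
    exact ⟨T ∪ T', h1.union h1', Set.union_subset h2 h2', Subgroup.mul_mem _
      (Subgroup.closure_mono Set.subset_union_left h3)
      (Subgroup.closure_mono Set.subset_union_right h3')⟩
  | inv a _ ha =>
    obtain ⟨T, h1, h2, h3⟩ := ha
    exact ⟨T, h1, h2, Subgroup.inv_mem _ h3⟩

/-- a finitely generated group generated by `S` is generated by finitely many members of `S` -/
theorem generators {G : Type} [Group G] (S : Set G) {n₀ : ℕ}
    (φ₀ : FreeGroup (Fin n₀) →* ↥(Subgroup.closure S)) (h₀ : Function.Surjective φ₀) :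
    ∃ (n : ℕ) (τ : Fin n → ↥(Subgroup.closure S)), (∀ i, (τ i : G) ∈ S) ∧
      Function.Surjective (FreeGroup.lift τ) := by
  classical
  choose T hT1 hT2 hT3 using fun i : Fin n₀ =>
    exists_finite S (φ₀ (FreeGroup.of i) : G) (φ₀ (FreeGroup.of i)).2
  have hfin : (⋃ i, T i).Finite := Set.finite_iUnion hT1
  obtain ⟨n, f, hf⟩ : ∃ (n : ℕ) (f : Fin n → G), Set.range f = ⋃ i, T i := by
    obtain ⟨m, e⟩ := hfin.toFinset.equivFin.symm |> fun e => (⟨_, e⟩ : Σ' m, Fin m ≃ _)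
    refine ⟨m, fun i => (e i : G), ?_⟩
    ext x
    constructor
    · rintro ⟨i, rfl⟩
      exact hfin.mem_toFinset.1 (e i).2
    · intro hx
      exact ⟨e.symm ⟨x, hfin.mem_toFinset.2 hx⟩, by simp⟩
  have hfS : ∀ i, f i ∈ S := by
    intro i
    have : f i ∈ ⋃ i, T i := by rw [← hf]; exact ⟨i, rfl⟩
    obtain ⟨j, hj⟩ := Set.mem_iUnion.1 this
    exact hT2 j hj
  refine ⟨n, fun i => ⟨f i, Subgroup.subset_closure (hfS i)⟩, hfS, ?_⟩
  set τ : Fin n → ↥(Subgroup.closure S) := fun i => ⟨f i, Subgroup.subset_closure (hfS i)⟩ with hτ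
  have hle : Subgroup.closure (⋃ i, T i) ≤
      ((FreeGroup.lift τ).range).map (Subgroup.closure S).subtype := by
    rw [Subgroup.closure_le, ← hf]
    rintro _ ⟨i, rfl⟩
    exact ⟨τ i, ⟨FreeGroup.of i, by rw [FreeGroup.lift_apply_of]⟩, rfl⟩
  have hi : ∀ i, φ₀ (FreeGroup.of i) ∈ (FreeGroup.lift τ).range := by
    intro i
    obtain ⟨y, hy, hy2⟩ := hle (Subgroup.closure_mono (Set.subset_iUnion T i) (hT3 i))
    have : y = φ₀ (FreeGroup.of i) := Subtype.ext hy2
    rw [← this]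
    exact hy
  intro g
  obtain ⟨x, rfl⟩ := h₀ g
  have : φ₀ x ∈ (FreeGroup.lift τ).range := by
    induction x using FreeGroup.induction_on with
    | C1 => rw [map_one]; exact Subgroup.one_mem _
    | of i => exact hi i
    | inv_of i _ => rw [map_inv]; exact Subgroup.inv_mem _ (hi i)
    | mul a b ha hb => rw [map_mul]; exact Subgroup.mul_mem _ ha hb
  exact this

theorem result (P : Set ℕ) (hP : P.Finite) :
    (∃ (n : ℕ) (τ : Fin n → CT P), (∀ i, (τ i : Equiv.Perm ℤ) ∈ classTranspositions P) ∧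
      Function.Surjective (FreeGroup.lift τ)) ∧
    ∀ (n : ℕ) (g : Fin n → CT P), Function.Surjective (FreeGroup.lift g) →
      ∃ R : Set (FreeGroup (Fin n)), R.Finite ∧
        (FreeGroup.lift g).ker = Subgroup.normalClosure R := by
  classical
  obtain ⟨Q, hQ, hQP⟩ : ∃ Q : Finset ℕ, (∀ p ∈ Q, p.Prime) ∧
      classTranspositions P = classTranspositions (Q : Set ℕ) := by
    refine ⟨hP.toFinset.filter Nat.Prime, fun p hp => (Finset.mem_filter.1 hp).2, ?_⟩
    ext τ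
    unfold classTranspositions
    simp only [Set.mem_ofPred_eq, Finset.coe_filter, Set.Finite.mem_toFinset]
    constructor
    · rintro ⟨r₁, m₁, r₂, m₂, h, h'⟩
      exact ⟨r₁, m₁, r₂, m₂, h, fun p hp hd => (h' p hp hd).imp id fun h => ⟨h, hp⟩⟩
    · rintro ⟨r₁, m₁, r₂, m₂, h, h'⟩
      exact ⟨r₁, m₁, r₂, m₂, h, fun p hp hd => (h' p hp hd).imp id fun h => h.1⟩
  have hS : classTranspositions P = Pool.Agent.CT.gens Q := by
    rw [hQP]
    ext τ
    exact mem_gens_iff Q τ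
  obtain ⟨n₀, φ₀, h₀, R₀, hk⟩ := Pool.Agent.CT.main Q hQ
  unfold CT
  rw [hS]
  exact ⟨generators _ φ₀ h₀, fun n g hg => change φ₀ h₀ R₀.finite_toSet hk _ hg⟩

end Pool.Agent.Results.MP_02e21a_al.AllGeneratingSets
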